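import Pool.Agent.Lib.LogG.GRes
import Pool.Agent.Lib.NSqD.ResB

/-!
# The numbers of prime factors of `d` and `e` modulo `k` for `n ^ 2 + 1 = d e`

`Ω` is the number of prime factors with multiplicity. Let `k ≥ 1`, `a, b` classes modulo `k`,
`0 < α < β`. Let `N(x)` be the number of pairs `(n, d)`, `n ≤ x`, `d ∣ n ^ 2 + 1`, `α n < d ≤ β n`, and
`N(x; a, b)` the number of those with `Ω(d) ≡ a`, `Ω((n ^ 2 + 1) / d) ≡ b`. Then
`∑_{X < x ≤ R X} |N(x; a, b) - N(x) / k ^ 2| / x ^ 2 ≤ ε log R` for `R ≥ R0(ε)`, `X ≥ X0(ε, R)`;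
`N(x; a, b) ≥ c x` for ALL large `x`; and for every `κ > 2 log 2 - 1` and all large `x` at least
`x / (log x) ^ κ` of the `n ≤ x` have a divisor `d` of `n ^ 2 + 1` with `α n < d ≤ β n`, `Ω(d) ≡ a`,
`Ω((n ^ 2 + 1) / d) ≡ b`.
-/

set_option autoImplicit false

namespace Pool.Agent.Results.MP_484c84_nt.AllClassesModK

open Real

theorem result (k : ℕ) (hk : 1 ≤ k) (a b : ZMod k) (α β : ℝ) (hα : 0 < α) (hαβ : α < β) :
    (∀ ε : ℝ, 0 < ε → ∃ R0 : ℕ, ∀ R : ℕ, R0 ≤ R → ∃ X0 : ℕ, ∀ X : ℕ, X0 ≤ X →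
      ∑ x ∈ Finset.Ioc X (R * X), 1 / (x : ℝ) ^ 2 *
        |∑ n ∈ Finset.Icc 1 x, (((n ^ 2 + 1).divisors.filter (fun d : ℕ =>
            (α * n < d ∧ (d : ℝ) ≤ β * n) ∧ (ArithmeticFunction.cardFactors d : ZMod k) = a ∧
            (ArithmeticFunction.cardFactors ((n ^ 2 + 1) / d) : ZMod k) = b)).card : ℝ) -
          (∑ n ∈ Finset.Icc 1 x, (((n ^ 2 + 1).divisors.filter (fun d : ℕ =>
            α * n < d ∧ (d : ℝ) ≤ β * n)).card : ℝ)) / (k : ℝ) ^ 2| ≤ ε * log R) ∧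
    (∃ c : ℝ, 0 < c ∧ ∃ x0 : ℕ, ∀ x : ℕ, x0 ≤ x → c * x ≤
      ∑ n ∈ Finset.Icc 1 x, (((n ^ 2 + 1).divisors.filter (fun d : ℕ =>
            (α * n < d ∧ (d : ℝ) ≤ β * n) ∧ (ArithmeticFunction.cardFactors d : ZMod k) = a ∧
            (ArithmeticFunction.cardFactors ((n ^ 2 + 1) / d) : ZMod k) = b)).card : ℝ)) ∧
    (∃ C : ℝ, ∀ x : ℕ, ∑ n ∈ Finset.Icc 1 x, (((n ^ 2 + 1).divisors.filter (fun d : ℕ =>
            α * n < d ∧ (d : ℝ) ≤ β * n)).card : ℝ) ≤ C * x) ∧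
    ∀ κ : ℝ, 2 * log 2 - 1 < κ → ∃ x0 : ℕ, ∀ x : ℕ, x0 ≤ x → (x : ℝ) / (log x) ^ κ ≤
      (((Finset.Icc 1 x).filter (fun n : ℕ => ((n ^ 2 + 1).divisors.filter (fun d : ℕ =>
            (α * n < d ∧ (d : ℝ) ≤ β * n) ∧ (ArithmeticFunction.cardFactors d : ZMod k) = a ∧
            (ArithmeticFunction.cardFactors ((n ^ 2 + 1) / d) : ZMod k) = b)).Nonempty)).card :
        ℝ) := by
  classical
  have : NeZero k := ⟨by omega⟩
  have hCV : ∀ n : ℕ, Pool.Agent.LogG.CV α β k a b n =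
      (((n ^ 2 + 1).divisors.filter (fun d : ℕ =>
            (α * n < d ∧ (d : ℝ) ≤ β * n) ∧ (ArithmeticFunction.cardFactors d : ZMod k) = a ∧
            (ArithmeticFunction.cardFactors ((n ^ 2 + 1) / d) : ZMod k) = b)).card : ℝ) := by
    intro n
    unfold Pool.Agent.LogG.CV Pool.Agent.LogG.DV
    rw [Finset.filter_filter]
  have hDV : ∀ n : ℕ, ((Pool.Agent.LogG.DV α β n).card : ℝ) =
      (((n ^ 2 + 1).divisors.filter (fun d : ℕ => α * n < d ∧ (d : ℝ) ≤ β * n)).card : ℝ) := by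
    intro n
    unfold Pool.Agent.LogG.DV
    congr 2
  refine ⟨?_, ?_, ?_, ?_⟩
  · have h := Pool.Agent.LogG.classes_windows k a b α β hα hαβ
    simp only [hCV, hDV] at h
    exact h
  · have h := Pool.Agent.LogG.classes_positive k a b α β hα hαβ
    simp only [hCV] at h
    exact h
  · have h := Pool.Agent.LogG.mass_upper α β hα hαβ
    simp only [hDV] at h
    exact h
  · intro κ hκ
    obtain ⟨x0, h⟩ := Pool.Agent.NSqD.classes_count_D k a b α β hα hαβ κ hκ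
    refine ⟨x0, fun x hx => (h x hx).trans (Nat.cast_le.2 (Finset.card_le_card ?_))⟩
    intro n hn
    have hn' : n ∈ Finset.Icc 1 x ∧ ∃ d : ℕ, d ∣ n ^ 2 + 1 ∧ α * n < d ∧ (d : ℝ) ≤ β * n ∧
        (ArithmeticFunction.cardFactors d : ZMod k) = a ∧
        (ArithmeticFunction.cardFactors ((n ^ 2 + 1) / d) : ZMod k) = b :=
      Finset.mem_filter.1 hn
    obtain ⟨h1, d, h2, h3, h4, h5, h6⟩ := hn'
    rw [Finset.mem_filter]
    refine ⟨h1, d, ?_⟩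
    rw [Finset.mem_filter, Nat.mem_divisors]
    exact ⟨⟨h2, by positivity⟩, ⟨h3, h4⟩, h5, h6⟩

end Pool.Agent.Results.MP_484c84_nt.AllClassesModK
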