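import Pool.Agent.Lib.LogG.GRes

/-!
# Multiplicative functions of finite order along the factorisations of `n ^ 2 + 1`

Let `f, g` be completely multiplicative with values in the `k`-th roots of unity, at least one of
them not pretending to be a Dirichlet character on the primes `1` modulo `4`, and `0 < α < β`. Put
`S(x) = ∑_{n ≤ x} ∑_{d e = n ^ 2 + 1, α n < d ≤ β n} f(d) g(e)`. For every `ε > 0`, all `R ≥ R0(ε)` and
all `X ≥ X0(ε, R)` we have `∑_{X < x ≤ R X} |S(x)| / x ^ 2 ≤ ε log R`, while the number of terms of `S(x)`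
is between `c x` and `C x`.
-/

set_option autoImplicit false

namespace Pool.Agent.Results.MP_484c84_nt.FactorisationWindows

open Real

theorem result (k : ℕ) (hk : 1 ≤ k) (f g : ℕ → ℂ)
    (hf : ∀ m n : ℕ, m ≠ 0 → n ≠ 0 → f (m * n) = f m * f n) (hfk : ∀ n : ℕ, n ≠ 0 → f n ^ k = 1)
    (hg : ∀ m n : ℕ, m ≠ 0 → n ≠ 0 → g (m * n) = g m * g n) (hgk : ∀ n : ℕ, n ≠ 0 → g n ^ k = 1)
    (hN : (∀ r : ℕ, 1 ≤ r → ∀ ψ : DirichletCharacter ℂ r,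
        ¬ Summable (fun p : {p : ℕ // p.Prime ∧ p % 4 = 1 ∧ f p ≠ ψ (p : ZMod r)} =>
          1 / (p : ℝ))) ∨
      (∀ r : ℕ, 1 ≤ r → ∀ ψ : DirichletCharacter ℂ r,
        ¬ Summable (fun p : {p : ℕ // p.Prime ∧ p % 4 = 1 ∧ g p ≠ ψ (p : ZMod r)} =>
          1 / (p : ℝ))))
    (α β : ℝ) (hα : 0 < α) (hαβ : α < β) :
    (∀ ε : ℝ, 0 < ε → ∃ R0 : ℕ, ∀ R : ℕ, R0 ≤ R → ∃ X0 : ℕ, ∀ X : ℕ, X0 ≤ X →
      ∑ x ∈ Finset.Ioc X (R * X), 1 / (x : ℝ) ^ 2 *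
        ‖∑ n ∈ Finset.Icc 1 x, ∑ d ∈ (n ^ 2 + 1).divisors.filter
          (fun d : ℕ => α * n < d ∧ (d : ℝ) ≤ β * n), f d * g ((n ^ 2 + 1) / d)‖ ≤
        ε * log R) ∧
    ∃ c C : ℝ, 0 < c ∧ ∃ x0 : ℕ, ∀ x : ℕ, x0 ≤ x →
      c * x ≤ ∑ n ∈ Finset.Icc 1 x,
        (((n ^ 2 + 1).divisors.filter (fun d : ℕ => α * n < d ∧ (d : ℝ) ≤ β * n)).card : ℝ) ∧
      ∑ n ∈ Finset.Icc 1 x,
        (((n ^ 2 + 1).divisors.filter (fun d : ℕ => α * n < d ∧ (d : ℝ) ≤ β * n)).card : ℝ) ≤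
          C * x := by
  classical
  have conv : ∀ h : ℕ → ℂ, (∀ r : ℕ, 1 ≤ r → ∀ ψ : DirichletCharacter ℂ r,
        ¬ Summable (fun p : {p : ℕ // p.Prime ∧ p % 4 = 1 ∧ h p ≠ ψ (p : ZMod r)} =>
          1 / (p : ℝ))) → Pool.Agent.LogG.NPD h := by
    intro h hh r hr ψ hs
    apply hh r hr ψ
    have h1 : Summable (Set.indicator {p : ℕ | p.Prime ∧ p % 4 = 1 ∧ h p ≠ ψ (p : ZMod r)}
        (fun p : ℕ => 1 / (p : ℝ))) := by
      refine hs.congr fun p => ?_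
      rw [Set.indicator_apply]
      by_cases hp : p.Prime ∧ p % 4 = 1 ∧ h p ≠ ψ (p : ZMod r)
      · rw [if_pos hp, if_pos (show p ∈ {p : ℕ | p.Prime ∧ p % 4 = 1 ∧ h p ≠ ψ (p : ZMod r)}
          from hp)]
      · rw [if_neg hp, if_neg (show ¬ p ∈ {p : ℕ | p.Prime ∧ p % 4 = 1 ∧ h p ≠ ψ (p : ZMod r)}
          from hp)]
    exact summable_subtype_iff_indicator.2 h1
  have hF : Pool.Agent.LogG.MF k f := ⟨hf, hfk⟩
  have hG : Pool.Agent.LogG.MF k g := ⟨hg, hgk⟩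
  refine ⟨fun ε hε => Pool.Agent.LogG.windows hk hF hG (hN.imp (conv f) (conv g)) α β hα hαβ
    ε hε, ?_⟩
  obtain ⟨c, hc, x0, h1⟩ := Pool.Agent.LogCh.mass_lower α β hα hαβ
  obtain ⟨C, h2⟩ := Pool.Agent.LogG.mass_upper α β hα hαβ
  refine ⟨c, C, hc, x0, fun x hx => ⟨h1 x hx, ?_⟩⟩
  have h3 := h2 x
  unfold Pool.Agent.LogG.DV at h3
  exact h3

end Pool.Agent.Results.MP_484c84_nt.FactorisationWindows
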