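import Pool.Agent.Lib.PosProp.Sq2

/-!
# Many long intervals without any `m` such that `m ^ 2 + 1` is prime
-/

namespace Pool.Agent.Results.MP_484c84_nt.LongGaps

open Classical in
/-- `emptyStarts X H` is the number of integers `0 ≤ n ≤ X` with `n + H ≤ X` for which no integer
`m` with `n < m ≤ n + H` makes `m ^ 2 + 1` a prime number. -/
noncomputable def emptyStarts (X H : ℝ) : ℕ :=
  ((Finset.range (⌊X⌋₊ + 1)).filter fun n : ℕ =>
    (n : ℝ) + H ≤ X ∧ ∀ m : ℕ, n < m → (m : ℝ) ≤ n + H → ¬ (m ^ 2 + 1).Prime).card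

/-- For `1 ≤ lam ≤ c log log X` at least `exp (- exp (C lam)) X` of the intervals
`(n, n + lam log X]` below `X` contain no integer `m` with `m ^ 2 + 1` prime. -/
theorem result : ∃ c : ℝ, 0 < c ∧ ∃ C X₀ : ℝ, ∀ X : ℝ, X₀ ≤ X → ∀ lam : ℝ, 1 ≤ lam →
    lam ≤ c * Real.log (Real.log X) →
    Real.exp (-Real.exp (C * lam)) * X ≤ (emptyStarts X (lam * Real.log X) : ℝ) := by
  obtain ⟨c, hc, C, X₀, h⟩ := Pool.Agent.PosProp.sq_main
  exact ⟨c, hc, C, X₀, fun X hX lam h1 h2 => h X hX lam h1 h2⟩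

end Pool.Agent.Results.MP_484c84_nt.LongGaps
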