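import Pool.Agent.Lib.NSqD.ResA

/-!
# Both parities of the number of prime factors of `n ^ 2 + 1`

Count every `n ≤ x` with the number of its balanced factorizations `n ^ 2 + 1 = d d'`, `d, d' ≤ x`.
For every completely multiplicative `g` with values `1, -1` and `g p = -1`, where `p` is a fixed
prime, `p = 2` or `p ≡ 1 (mod 4)`, each sign `e` receives a positive proportion of the total
count, and for every `κ > 2 log 2 - 1` the equation `g (n ^ 2 + 1) = e` holds for at least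
`x / (log x) ^ κ` of the `n ≤ x`.
-/

set_option autoImplicit false

namespace Pool.Agent.Results.MP_484c84_nt.PositiveProportionParity

open Pool.Agent.MP484c84Par Pool.Agent.NSqP Real

theorem result (p : ℕ) (hp : p.Prime) (hp4 : p = 2 ∨ p % 4 = 1) :
    ∃ c C : ℝ, 0 < c ∧ ∀ κ : ℝ, 2 * log 2 - 1 < κ → ∃ x0 : ℕ, ∀ g : ℕ → ℤ,
      (∀ n, 1 ≤ n → g n = 1 ∨ g n = -1) →
      (∀ a b, 1 ≤ a → 1 ≤ b → g (a * b) = g a * g b) →
      g p = -1 →
      ∀ x : ℕ, x0 ≤ x → ∀ e : ℤ, (e = 1 ∨ e = -1) →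
        c * x ≤ (((Finset.Icc 1 x ×ˢ Finset.Icc 1 x).filter
            (fun q : ℕ × ℕ => q.2 ∣ q.1 ^ 2 + 1 ∧ (q.1 ^ 2 + 1) / q.2 ≤ x ∧
              g (q.1 ^ 2 + 1) = e)).card : ℝ) ∧
        (((Finset.Icc 1 x ×ˢ Finset.Icc 1 x).filter
            (fun q : ℕ × ℕ => q.2 ∣ q.1 ^ 2 + 1 ∧ (q.1 ^ 2 + 1) / q.2 ≤ x)).card : ℝ) ≤ C * x ∧
        (x : ℝ) / (log x) ^ κ ≤
          (((Finset.Icc 1 x).filter (fun n => g (n ^ 2 + 1) = e)).card : ℝ) := by
  obtain ⟨c, hc, h0⟩ := Pool.Agent.NSqD.mainD p hp hp4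
  obtain ⟨C, hC, h2⟩ := card_prs_le
  refine ⟨c, C, hc, fun κ hκ => ?_⟩
  obtain ⟨x1, h1⟩ := h0 κ hκ
  refine ⟨max x1 1, fun g hs hm hgp x hx e he => ?_⟩
  have hx1 : x1 ≤ x := le_trans (le_max_left _ _) hx
  have hx2 : 1 ≤ x := le_trans (le_max_right _ _) hx
  obtain ⟨h3, h4⟩ := h1 g ⟨hs, hm⟩ hgp x hx1 e he
  refine ⟨?_, ?_, h4⟩
  · exact h3
  · have h5 := h2 (fun _ => 1) 1 x hx2
    refine le_trans (le_of_eq ?_) h5
    congr 2
    ext q
    simp [prs, Finset.mem_filter]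

end Pool.Agent.Results.MP_484c84_nt.PositiveProportionParity
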